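import Pool.Agent.MP_13e7a1_an.H82.Spec

/-!
Circle averages and the operator `L_Z`.
-/

open scoped ContDiff Topology
open Set Metric MeasureTheory Filter

noncomputable section

namespace Pool.Agent.MP_13e7a1_an.H64

open Pool.Agent.MP_13e7a1_an.H82

/-- Second order Taylor estimate at the origin. -/
theorem taylor2 {g : ℂ → ℝ} (hg : ContDiff ℝ ∞ g) {ε : ℝ} (hε : 0 < ε) :
    ∃ δ > 0, ∀ z : ℂ, ‖z‖ < δ →
      |g z - g 0 - fderiv ℝ g 0 z - fderiv ℝ (fderiv ℝ g) 0 z z / 2| ≤ ε * ‖z‖ ^ 2 := by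
  have hd : Differentiable ℝ g := hg.differentiable (by simp)
  have hd2 : Differentiable ℝ (fderiv ℝ g) :=
    (hg.fderiv_right (m := 1) (by norm_cast)).differentiable (by simp)
  have hs : ∀ v w, fderiv ℝ (fderiv ℝ g) 0 v w = fderiv ℝ (fderiv ℝ g) 0 w v :=
    fun v w => (hg.contDiffAt.isSymmSndFDerivAt (by simp; norm_cast)).eq v w
  set B := fderiv ℝ (fderiv ℝ g) 0 with hB
  have h1 := ((hd2 0).hasFDerivAt.isLittleO).def hε
  obtain ⟨δ, hδ, hb⟩ := Metric.eventually_nhds_iff.mp h1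
  refine ⟨δ, hδ, fun z hz => ?_⟩
  have hder : ∀ y : ℂ, HasFDerivAt (fun y : ℂ => g y - fderiv ℝ g 0 y - B y y / 2)
      (fderiv ℝ g y - fderiv ℝ g 0 - B y) y := by
    intro y
    have a1 : HasFDerivAt (fun y : ℂ => B y y) (B y + B y) y := by
      refine ((B.hasFDerivAt (x := y)).clm_apply (hasFDerivAt_id y)).congr_fderiv ?_
      refine ContinuousLinearMap.ext fun v => ?_
      simp [hs y]
    have a2 := ((hd y).hasFDerivAt.sub (fderiv ℝ g 0).hasFDerivAt).sub (a1.mul_const (2⁻¹ : ℝ))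
    simp only [div_eq_mul_inv]
    refine a2.congr_fderiv ?_
    refine ContinuousLinearMap.ext fun v => ?_
    simp
    ring
  have hm := (convex_closedBall (0 : ℂ) ‖z‖).norm_image_sub_le_of_norm_hasFDerivWithin_le
    (f := fun y : ℂ => g y - fderiv ℝ g 0 y - B y y / 2)
    (f' := fun y => fderiv ℝ g y - fderiv ℝ g 0 - B y) (C := ε * ‖z‖)
    (fun y _ => (hder y).hasFDerivWithinAt)
    (fun y hy => by
      have hy' : ‖y‖ ≤ ‖z‖ := by simpa using hy
      have := hb (y := y) (by simpa using hy'.trans_lt hz)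
      simp only [sub_zero] at this
      exact this.trans (by gcongr))
    (mem_closedBall_self (norm_nonneg z)) (show z ∈ closedBall (0 : ℂ) ‖z‖ by simp)
  simp only [map_zero, sub_zero, zero_div, Real.norm_eq_abs] at hm
  calc _ = |g z - fderiv ℝ g 0 z - B z z / 2 - g 0| := by congr 1; ring
    _ ≤ ε * ‖z‖ * ‖z‖ := hm
    _ = _ := by ring

theorem circ (r θ : ℝ) : circleMap 0 r θ =
    (r * Real.cos θ) • (1 : ℂ) + (r * Real.sin θ) • Complex.I := by
  apply Complex.ext <;> simp [circleMap, Complex.exp_re, Complex.exp_im, Complex.cos_ofReal_re,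
    Complex.sin_ofReal_re]

/-- Circle average of a polynomial of degree two. -/
theorem avg_poly (a : ℝ) (D : ℂ →L[ℝ] ℝ) (B : ℂ →L[ℝ] ℂ →L[ℝ] ℝ) (r : ℝ) :
    Real.circleAverage (fun z => a + D z + B z z / 2) 0 r =
      a + r ^ 2 * ((B 1 1 + B Complex.I Complex.I) / 4) := by
  have e : ∀ θ : ℝ, a + D (circleMap 0 r θ) + B (circleMap 0 r θ) (circleMap 0 r θ) / 2 =
      a + r * D 1 * Real.cos θ + r * D Complex.I * Real.sin θ
        + r ^ 2 * B 1 1 / 2 * Real.cos θ ^ 2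
        + r ^ 2 * (B 1 Complex.I + B Complex.I 1) / 2 * (Real.sin θ * Real.cos θ)
        + r ^ 2 * B Complex.I Complex.I / 2 * Real.sin θ ^ 2 := by
    intro θ
    rw [circ]
    simp only [map_add, map_smul, ContinuousLinearMap.add_apply, ContinuousLinearMap.smul_apply,
      smul_eq_mul]
    ring
  rw [Real.circleAverage]
  simp only [e]
  rw [intervalIntegral.integral_add, intervalIntegral.integral_add, intervalIntegral.integral_add,
    intervalIntegral.integral_add, intervalIntegral.integral_add]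
  · simp only [intervalIntegral.integral_const_mul, integral_cos, integral_sin, integral_cos_sq,
      integral_sin_sq, integral_sin_mul_cos₁, intervalIntegral.integral_const, Real.sin_two_pi,
      Real.cos_two_pi, Real.sin_zero, Real.cos_zero, smul_eq_mul]
    field_simp
    ring
  all_goals exact Continuous.intervalIntegrable (by fun_prop) _ _

theorem lim (g : ℂ → ℝ) (hg : ContDiff ℝ ∞ g) :
    Tendsto (fun r : ℝ => (Real.circleAverage g 0 r - g 0) / r ^ 2) (𝓝[>] 0)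
      (𝓝 ((fderiv ℝ (fderiv ℝ g) 0 1 1 + fderiv ℝ (fderiv ℝ g) 0 Complex.I Complex.I) / 4)) := by
  set D := fderiv ℝ g 0 with hD
  set B := fderiv ℝ (fderiv ℝ g) 0 with hB
  rw [Metric.tendsto_nhdsWithin_nhds]
  intro ε hε
  obtain ⟨δ, hδ, hb⟩ := taylor2 hg (half_pos hε)
  refine ⟨δ, hδ, fun r hr hrδ => ?_⟩
  have hr0 : 0 < r := hr
  have hrδ' : r < δ := by
    rw [Real.dist_eq, sub_zero, abs_of_pos hr0] at hrδ
    exact hrδ
  have hc : Continuous g := hg.continuous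
  have hP : Continuous fun z : ℂ => g 0 + D z + B z z / 2 := by fun_prop
  have i1 : CircleIntegrable g 0 r := hc.continuousOn.circleIntegrable hr0.le
  have i2 : CircleIntegrable (fun z : ℂ => g 0 + D z + B z z / 2) 0 r :=
    hP.continuousOn.circleIntegrable hr0.le
  have e1 : Real.circleAverage g 0 r - (g 0 + r ^ 2 * ((B 1 1 + B Complex.I Complex.I) / 4)) =
      Real.circleAverage (fun z => g z - (g 0 + D z + B z z / 2)) 0 r := by
    rw [← avg_poly (g 0) D B r, ← Real.circleAverage_fun_sub i1 i2]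
  have i3 : CircleIntegrable (fun z => g z - (g 0 + D z + B z z / 2)) 0 r :=
    (hc.sub hP).continuousOn.circleIntegrable hr0.le
  have hbd : ∀ z ∈ sphere (0 : ℂ) |r|, |g z - (g 0 + D z + B z z / 2)| ≤ ε / 2 * r ^ 2 := by
    intro z hz
    have hz' : ‖z‖ = r := by simpa [abs_of_pos hr0] using hz
    have := hb z (hz' ▸ hrδ')
    rw [hz'] at this
    refine le_of_eq_of_le ?_ this
    congr 1
    ring
  have up : Real.circleAverage (fun z => g z - (g 0 + D z + B z z / 2)) 0 r ≤ ε / 2 * r ^ 2 :=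
    Real.circleAverage_mono_on_of_le_circle i3 fun z hz => (le_abs_self _).trans (hbd z hz)
  have lo : -(ε / 2 * r ^ 2) ≤ Real.circleAverage (fun z => g z - (g 0 + D z + B z z / 2)) 0 r := by
    have := Real.circleAverage_mono (f₁ := fun _ : ℂ => -(ε / 2 * r ^ 2)) (c := 0) (R := r)
      (circleIntegrable_const _ _ _) i3 fun z hz => (abs_le.mp (hbd z hz)).1
    rwa [Real.circleAverage_const] at this
  rw [← e1] at up lo
  have hr2 : 0 < r ^ 2 := by positivity
  rw [Real.dist_eq]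
  have e2 : (Real.circleAverage g 0 r - g 0) / r ^ 2 - (B 1 1 + B Complex.I Complex.I) / 4 =
      (Real.circleAverage g 0 r - (g 0 + r ^ 2 * ((B 1 1 + B Complex.I Complex.I) / 4))) / r ^ 2 := by
    field_simp
    ring
  rw [e2, abs_div, abs_of_pos hr2, div_lt_iff₀ hr2]
  refine (abs_le.mpr ⟨lo, up⟩).trans_lt ?_
  nlinarith

/-- Second derivatives as derivatives of first derivatives. -/
theorem snd {F G : Type} [NormedAddCommGroup F] [NormedSpace ℝ F] [NormedAddCommGroup G]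
    [NormedSpace ℝ G] {h : F → G} (hh : ContDiff ℝ ∞ h) (x v w : F) :
    fderiv ℝ (fderiv ℝ h) x v w = fderiv ℝ (fun y => fderiv ℝ h y w) x v := by
  have hd2 : Differentiable ℝ (fderiv ℝ h) :=
    (hh.fderiv_right (m := 1) (by norm_cast)).differentiable (by simp)
  have := ((hd2 x).hasFDerivAt.clm_apply (hasFDerivAt_const w x)).fderiv
  rw [this]
  simp

theorem chain2 {γ : ℂ → E} (hγ : ContDiff ℝ ∞ γ) {f : E → ℝ} (hf : ContDiff ℝ ∞ f) (v : ℂ) :
    fderiv ℝ (fderiv ℝ (fun ζ => f (γ ζ))) 0 v v =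
      fderiv ℝ (fderiv ℝ f) (γ 0) (fderiv ℝ γ 0 v) (fderiv ℝ γ 0 v)
        + fderiv ℝ f (γ 0) (fderiv ℝ (fderiv ℝ γ) 0 v v) := by
  have hd : Differentiable ℝ γ := hγ.differentiable (by simp)
  have hd2 : Differentiable ℝ (fderiv ℝ γ) :=
    (hγ.fderiv_right (m := 1) (by norm_cast)).differentiable (by simp)
  have hf1 : Differentiable ℝ f := hf.differentiable (by simp)
  have hf2 : Differentiable ℝ (fderiv ℝ f) :=
    (hf.fderiv_right (m := 1) (by norm_cast)).differentiable (by simp)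
  have hc : ContDiff ℝ ∞ fun ζ => f (γ ζ) := hf.comp hγ
  rw [snd hc]
  have e : (fun y => fderiv ℝ (fun ζ => f (γ ζ)) y v) =
      fun y => fderiv ℝ f (γ y) (fderiv ℝ γ y v) := by
    funext y
    have := ((hf1 (γ y)).hasFDerivAt.comp y (hd y).hasFDerivAt).fderiv
    rw [show (fun ζ => f (γ ζ)) = f ∘ γ from rfl, this]
    simp
  rw [e]
  have a1 : HasFDerivAt (fun y => fderiv ℝ f (γ y))
      ((fderiv ℝ (fderiv ℝ f) (γ 0)).comp (fderiv ℝ γ 0)) 0 :=
    (hf2 (γ 0)).hasFDerivAt.comp 0 (hd 0).hasFDerivAt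
  have a2 := (hd2 0).hasFDerivAt.clm_apply (hasFDerivAt_const v (0 : ℂ))
  rw [(a1.clm_apply a2).fderiv]
  simp [add_comm]

theorem hol2 (c : Ctx) {γ : ℂ → E} (hγ : ContDiff ℝ ∞ γ) (hH : c.Hol γ) (v : ℂ) :
    fderiv ℝ (fderiv ℝ γ) 0 (Complex.I * v) (Complex.I * v) =
      fderiv ℝ c.J (γ 0) (fderiv ℝ γ 0 (Complex.I * v)) (fderiv ℝ γ 0 v)
        + c.J (γ 0) (fderiv ℝ (fderiv ℝ γ) 0 (Complex.I * v) v) := by
  have hd : Differentiable ℝ γ := hγ.differentiable (by simp)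
  have hd2 : Differentiable ℝ (fderiv ℝ γ) :=
    (hγ.fderiv_right (m := 1) (by norm_cast)).differentiable (by simp)
  have hJ : Differentiable ℝ c.J := c.smooth.differentiable (by simp)
  rw [snd hγ]
  have e : (fun y => fderiv ℝ γ y (Complex.I * v)) =ᶠ[𝓝 0]
      fun y => c.J (γ y) (fderiv ℝ γ y v) := by
    filter_upwards [ball_mem_nhds (0 : ℂ) one_pos] with y hy using hH y hy v
  rw [e.fderiv_eq]
  have a1 : HasFDerivAt (fun y => c.J (γ y)) ((fderiv ℝ c.J (γ 0)).comp (fderiv ℝ γ 0)) 0 :=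
    (hJ (γ 0)).hasFDerivAt.comp 0 (hd 0).hasFDerivAt
  have a2 := (hd2 0).hasFDerivAt.clm_apply (hasFDerivAt_const v (0 : ℂ))
  rw [(a1.clm_apply a2).fderiv]
  simp [add_comm]

theorem disc (c : Ctx) (γ : ℂ → E) (hγ : ContDiff ℝ ∞ γ) (hH : c.Hol γ) (f : E → ℝ)
    (hf : ContDiff ℝ ∞ f) :
    fderiv ℝ (fderiv ℝ (fun ζ => f (γ ζ))) 0 1 1
      + fderiv ℝ (fderiv ℝ (fun ζ => f (γ ζ))) 0 Complex.I Complex.I =
    c.L (fderiv ℝ γ 0 1) f (γ 0) := by
  have h0 : (0 : ℂ) ∈ ball (0 : ℂ) 1 := mem_ball_self one_pos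
  have hI : fderiv ℝ γ 0 Complex.I = c.J (γ 0) (fderiv ℝ γ 0 1) := by
    simpa using hH 0 h0 1
  have hs : fderiv ℝ (fderiv ℝ γ) 0 Complex.I 1 = fderiv ℝ (fderiv ℝ γ) 0 1 Complex.I :=
    (hγ.contDiffAt.isSymmSndFDerivAt (by simp; norm_cast)).eq _ _
  have t1 := hol2 c hγ hH 1
  have t2 := hol2 c hγ hH Complex.I
  simp only [mul_one, Complex.I_mul_I, map_neg, ContinuousLinearMap.neg_apply, neg_neg] at t1 t2
  rw [chain2 hγ hf, chain2 hγ hf, t1, t2, hI, hs, Ctx.L, Ctx.b]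
  simp only [map_add, map_neg, map_sub]
  ring

theorem lap : SLap where
  lim := lim
  disc := disc
  smul := by
    intro c t Z f x
    simp only [Ctx.L, Ctx.b, map_smul, ContinuousLinearMap.smul_apply, smul_eq_mul, ← smul_sub]
    ring

theorem pshL (hD : SDisc) : SPshL := by
  intro c U f p hU hp hf hP Z
  obtain ⟨R, hR, hRU⟩ := Metric.isOpen_iff.mp hU p hp
  obtain ⟨δ, hδ, -, lam, hF⟩ := hD c p R hR
  set t : ℝ := δ / (2 * (‖Z‖ + 1)) with ht
  have ht0 : 0 < t := by positivity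
  have hZ : t • Z ∈ ball (0 : E) δ := by
    rw [mem_ball_zero_iff, norm_smul, Real.norm_eq_abs, abs_of_pos ht0, ht, div_mul_eq_mul_div,
      div_lt_iff₀ (by positivity)]
    nlinarith [norm_nonneg Z]
  have hp' : p ∈ ball p δ := mem_ball_self hδ
  have hγ : ContDiff ℝ ∞ fun ζ : ℂ => lam (p, t • Z, ζ) := hF.smooth.comp (by fun_prop)
  have hH := hF.hol p hp' _ hZ
  have h0 := hF.zero p hp' _ hZ
  have hl := lim (fun ζ : ℂ => f (lam (p, t • Z, ζ))) (hf.comp hγ)
  rw [disc c _ hγ hH f hf, hF.vel p hp' _ hZ, h0, lap.smul] at hl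
  have hge := ge_of_tendsto hl (b := 0) (by
    filter_upwards [Ioo_mem_nhdsGT (zero_lt_one' ℝ)] with r hr
    have := hP.2 _ hγ (fun ζ hζ => hRU (hF.maps p hp' _ hZ ζ hζ)) hH r hr.1 hr.2
    rw [h0] at this
    exact div_nonneg (sub_nonneg.mpr this) (by positivity))
  have ht2 : 0 < t ^ 2 := by positivity
  by_contra hneg
  push Not at hneg
  nlinarith [mul_pos ht2 (neg_pos.mpr hneg)]

end Pool.Agent.MP_13e7a1_an.H64
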